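import Pool.Agent.V5helper75.BK.Class

/-!
# Q1 for graph products and for all groups commensurable with right-angled Artin groups

`W K` is the right-angled Coxeter group of the finite graph `K`. Let `H` be a subgroup of finite index of `W K` which
acts properly discontinuously on a space `X` such that `X × X` is homeomorphic to the euclidean space of dimension
`2 n`. For example, `X` can be the interior of a contractible `n`-manifold `M` (with or without boundary) with an
arbitrary proper action of `H`: by theorems of Stallings and Siebenmann the square of a contractible open `n`-manifold
is homeomorphic to the euclidean space of dimension `2 n`. Q1 asserts that then the `ℓ²`-homology of `H` vanishes in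
the degrees `i > n / 2`. The Davis complex of `W K` is a contractible complex with a geometric action of `H`, so the
`ℓ²`-homology of `H` in degree `i` is the space of the `ℓ²` harmonic `i`-chains of the Davis complex, and it is zero if
and only if `L2Van K i`.

We prove this for all graphs `K` of the class `FG`. This is a statement about all the actions of `H` on contractible
manifolds (the actions do not need to be cocompact), not only about the actions on thickenings of the Davis complex. A
group which is commensurable with `W K` contains a subgroup `H` as above with finite index, so Q1 holds for all these
groups.

The class `FG` is closed under joins (direct products), unions (amalgamated products) along full subgraphs with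
vanishing `ℓ²`-homology, disjoint unions (free products), and under the substitution of graphs `H v` of the class,
which are not complete, for the vertices `v` of an **arbitrary** finite graph `G` (graph products of infinite groups
over arbitrary graphs). In particular it contains the octahedralization `oct G` of every finite graph `G` (every vertex
is doubled), and `W (oct G)` is commensurable with the right-angled Artin group of `G` (Davis and Januszkiewicz). Its
`ℓ²`-homology in degree `i` is nonzero if and only if the reduced rational homology of the flag complex of `G` in degree
`i - 1` is nonzero, which can happen for all `i` up to the dimension of `W (oct G)`.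
-/

set_option autoImplicit false

namespace Pool.Agent.Results.MP_ea75ba_gt.AllManifolds

open Pool.Agent.W907.SG Pool.Agent.V5helper75.VO Pool.Agent.V5helper75.BK

/-- (1) Let `K` be a graph of the class `FG`, and let the subgroup `H` of finite index of the right-angled Coxeter
group `W K` act properly discontinuously by homeomorphisms on the space `X`, where `X × X` is homeomorphic to the
euclidean space of dimension `2 n`. Then there are no nonzero `ℓ²` harmonic `i`-chains on the Davis complex of `W K`
for `i > n / 2`. (2) The octahedralization of every finite graph is in the class `FG`. -/
theorem result :
    (∀ (V : Type) [Fintype V] [LinearOrder V] (K : SimpleGraph V), FG K →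
      ∀ H : Subgroup (W K), H.FiniteIndex →
      ∀ (X : Type) [TopologicalSpace X] [MulAction H X] [ContinuousConstSMul H X] [ProperlyDiscontinuousSMul H X]
        (n : ℕ), Nonempty (X × X ≃ₜ (Fin (2 * n) → ℝ)) → ∀ i : ℕ, n < 2 * i → L2Van K i) ∧
    (∀ (V : Type) [Fintype V] [LinearOrder V] (G : SimpleGraph V), FG (oct G)) :=
  ⟨fun _ _ _ _ hK H hH _ _ _ _ _ _ e _ hi => geo_act hK.main.2 H hH e.some hi _ _, fun _ _ _ G => fg_oct G⟩

end Pool.Agent.Results.MP_ea75ba_gt.AllManifolds
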