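import Pool.Agent.V5helper79.CC.Main

/-!
# Q1 for right-angled Coxeter groups of complements of chordal graphs

`W K` is the right-angled Coxeter group of the finite graph `K`, `L2Van K i` says that its `ℓ²`-homology vanishes in
degree `i`. Let the complement of `K` be a chordal graph, i.e. the nerve of `W K` is the independence complex of a
chordal graph (for example of a tree or of an interval graph). We determine the range of the degrees of the
`ℓ²`-homology of the special subgroups by a min-max theorem, and prove Q1 for all manifolds.

A triple is a set of three vertices, one of which is adjacent to none of the other two; its special subgroup is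
virtually free and not virtually cyclic. Let `k` be the largest number of pairwise joined triples.

* `k` is also the least number of independent sets which meet all the triples; when they are deleted, the remaining
  special subgroup is virtually abelian.
* A degree `i` occurs in the `ℓ²`-homology of some special subgroup if and only if `i ≤ k`.
* If a subgroup of finite index acts properly discontinuously on `X`, where `X × X` is homeomorphic to the euclidean
  space of dimension `2 n` (for example the interior `X` of a contractible `n`-manifold, by theorems of Stallings
  and Siebenmann), then `2 k ≤ n`. Hence the `ℓ²`-homology vanishes in the degrees `i > n / 2`, as Q1 predicts.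
* The last statement holds as well for graph products of such groups over arbitrary finite graphs `G`: the vertices
  `v` of `G` are replaced by non-complete graphs `K v` with chordal complements.

Proof. In a perfect elimination order of the complement let `q` be the first vertex which is the last vertex of a
triple `S`. The neighbours of `q` (in the complement) after `q` form together with `q` a clique of the complement
which meets all the triples that are not joined to `S`; now delete it. Adding an independent set raises the degrees
of the `ℓ²`-homology at most by one (Mayer-Vietoris), and a group without triples is virtually abelian. For the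
lower bounds: Euler characteristic and Kuenneth formula; van Kampen obstruction (Bestvina, Kapovich, Kleiner) in the
form of `V5helper75.BK`.
-/

set_option autoImplicit false

namespace Pool.Agent.Results.MP_ea75ba_gt.CoChordal

open Pool.Agent.W907.SG Pool.Agent.V5helper75.VO Pool.Agent.V5helper75.BK Pool.Agent.V5helper79.CC

/-- (1) Let the complement of the finite graph `K` be chordal. There is a number `k` such that there are `k` pairwise
joined triples, and `k` independent sets which meet all triples; a degree `i` occurs in the `ℓ²`-homology of some
special subgroup if and only if `i ≤ k`; and if a subgroup of finite index of `W K` acts properly discontinuously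
on a space whose square is homeomorphic to the euclidean space of dimension `2 n`, then `2 k ≤ n`, so that
the `ℓ²`-homology vanishes in the degrees `i > n / 2`.
(2) The same vanishing holds for the graph products `W (sbt G K)`. -/
theorem result :
    (∀ (V : Type) [Fintype V] [LinearOrder V] (K : SimpleGraph V), CoChordal K →
      ∃ k : ℕ, Packing K k ∧ Covering K k ∧
        (∀ i : ℕ, (∃ A : Finset V, ¬ L2Van (K.induce (A : Set V)) i) ↔ i ≤ k) ∧
        ∀ n : ℕ, ActsProperly K n → 2 * k ≤ n ∧ ∀ i : ℕ, n < 2 * i → L2Van K i) ∧
    (∀ (V : Type) [Finite V] (U : V → Type) [∀ v, Finite (U v)] (G : SimpleGraph V) (K : ∀ v, SimpleGraph (U v)),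
      (∀ v, K v ≠ ⊤) → (∀ v, CoChordal (K v)) → ∀ [Fintype (Σ v, U v)] [LinearOrder (Σ v, U v)] (n : ℕ),
        ActsProperly (sbt G K) n → ∀ i : ℕ, n < 2 * i → L2Van (sbt G K) i) := by
  classical
  refine ⟨?_, ?_⟩
  · intro V _ _ K hK
    obtain ⟨k, h1, h2⟩ := exists_size hK
    refine ⟨k, h1, h2, fun i => ⟨?_, fun hi => exists_nonzero h1 i hi⟩, fun n hn => ⟨packing_acts h1 hn, ?_⟩⟩
    · rintro ⟨A, hA⟩
      by_contra h3
      exact hA (van_cover h2 (A : Set V) i (by omega) _ _)
    · intro i hi
      have h3 := packing_acts h1 hn
      exact (Pool.Agent.TH652.Above.lv_univ K i).1 (van_cover h2 Set.univ i (by omega)) _ _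
  · intro V _ U _ G K hn hK _ _ n h i hi
    exact geo_acts (geo_sbt G K hn fun v => geo_cochordal (hK v)) h hi _ _

end Pool.Agent.Results.MP_ea75ba_gt.CoChordal
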