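import Pool.Agent.V5helper88.GA.Main

/-!
# The exact range of the `ℓ²`-homology of the special subgroups: the degree of the `γ`-polynomial

Let the flag complex `L` of the finite graph `G` be a real homology manifold with the homology of the
`(n-1)`-sphere (`HSph n G`), with right-angled Coxeter group `W`. If `L` is a combinatorial sphere then all the
special subgroups `W_A = W (G.induce A)`, `A` a set of vertices, act geometrically on contractible `n`-manifolds
with boundary (regular neighbourhoods of their Davis complexes in the Davis manifold of `L`), so that their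
cocompact action dimension is at most `n` and Q1 predicts that `L²H_i(W_A) = 0` for `i > n / 2`. We determine the
optimal bound for a given `L`: it is the degree `g ≤ n / 2` of the `γ`-polynomial `∑ c i s ^ i` of `L`, which
is given by the numbers of the simplices of `L`:
`f(X) = ∑_S X ^ |S| = ∑ c i X ^ i (1 + X) ^ i (1 + 2 X) ^ (n - 2 i)` (`IsGam n G c`).

`chiL G T` is the Euler characteristic `χ(W_(lk T))` of the right-angled Coxeter group of the link of `T`, and
`L2Van (G.induce A) i` says that the reduced `ℓ²`-homology of the Davis complex of `W_A` is zero in the degree `i`.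

Proof. The Taylor coefficients of `f` at `-1/2` are the sums of the `χ(W_(lk T))` over the simplices `T` with a
given number of vertices; they are zero in the wrong parity, which gives the `c i`. By the hypothesis on the links
their Euler characteristics have the expected signs, so that the order of the zero of `f` at `-1/2` determines for
which `T` they are zero; the `ℓ²`-homology of the special subgroups is computed from these links by the removal of
vertices (`N13.EU`).
-/

set_option autoImplicit false

namespace Pool.Agent.Results.MP_ea75ba_gt.GammaDegree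

open Pool.Agent.W907.SG Pool.Agent.W907.SM Pool.Agent.TH652.Above Pool.Agent.Y132.SI Pool.Agent.N13.EU
open Pool.Agent.N13.PL Pool.Agent.V5helper88.GA

open Classical in
/-- **Result.** (1) Every flag homology sphere has exactly one `γ`-vector.

(2) Let `L` be a flag homology sphere of dimension `n - 1` with `γ`-vector `c`. Suppose that `G` is in the class
`AM n` (for instance the barycentric subdivision of a triangulated sphere), or that for all faces `T` with
`n - |T| = 2 m + 1 ≥ 5` and for the set `U` of the vertices `v` of the link of `T` with `χ(W_(lk (T ∪ v))) ≠ 0`,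
`U` has at most `3 m + 2` elements or `b_(m+1)^(2)(W_U) = 0`. (There is no condition if `n ≤ 4`.) Then
(a) for all `j ≤ n / 2` the sum of the `|χ(W_(lk T))|` over the faces `T` with `n - 2 j` vertices is
`4 ^ (-j) ∑ i, (i choose j) 2 ^ (n - 2 i) c i`; (b) there is a number `g ≤ n / 2` with `c g > 0` and `c i = 0` for
all `i > g`, such that a degree `i` occurs in the `ℓ²`-homology of some `W_A` if and only if `i ≤ g`; for all
`A` and `ε > 0` the Betti numbers of the subgroups `H` of finite index of `W_A` which do not meet the conjugacy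
classes of a certain finite set of nontrivial elements satisfy `b_i(H) ≤ ε [W_A : H]` for all `i > g`, while for the
link `A` of a certain face `T` with `n - 2 g` vertices `b_g(H) ≥ (|χ(W_A)| - ε) [W_A : H]` with `χ(W_A) ≠ 0`.

(3) For each `N` the Singer conjecture for the right-angled Coxeter groups of all flag homology spheres of
dimension at most `N - 1` is equivalent to the statement that for all of them the `ℓ²`-homology of the special
subgroups occurs exactly in the degrees up to the degree of the `γ`-polynomial. -/
theorem result :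
    (∀ (n : ℕ) (V : Type) [Fintype V] [LinearOrder V] (G : SimpleGraph V), HSph n G →
      ∃! c : ℕ → ℚ, IsGam n G c) ∧
    (∀ (n : ℕ) (V : Type) [Fintype V] [LinearOrder V] (G : SimpleGraph V) (c : ℕ → ℚ), HSph n G →
      IsGam n G c →
      (AM n G ∨ ∀ (T : Finset V) (m : ℕ), G.IsClique (T : Set V) → T.card + (2 * m + 1) = n → 2 ≤ m →
        ∀ U : Finset V, (∀ v, v ∈ U ↔ v ∈ lk G T ∧ chiL G (insert v T) ≠ 0) →
          U.card ≤ 3 * m + 2 ∨ L2Van (G.induce (U : Set V)) (m + 1)) →
      (∀ j : ℕ, 2 * j ≤ n →
        ∑ T : Finset V, (if G.IsClique (T : Set V) ∧ T.card + 2 * j = n then |chiL G T| else 0) =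
          (1 / 4) ^ j * ∑ i ∈ Finset.range (n / 2 + 1), (i.choose j : ℚ) * 2 ^ (n - 2 * i) * c i) ∧
      ∃ g : ℕ, 2 * g ≤ n ∧ 0 < c g ∧ (∀ i, g < i → c i = 0) ∧
        (∀ i : ℕ, (∃ A : Finset V, ¬ L2Van (G.induce (A : Set V)) i) ↔ i ≤ g) ∧
        (∀ (A : Finset V) (ε : ℝ), 0 < ε → ∃ E : Finset (W (G.induce (A : Set V))),
          (1 : W (G.induce (A : Set V))) ∉ E ∧ ∀ H : Subgroup (W (G.induce (A : Set V))), H.FiniteIndex →
            (∀ x ∈ E, ∀ y : W (G.induce (A : Set V)), y * x * y⁻¹ ∉ H) → ∀ i : ℕ, g < i →
              (Module.finrank ℝ (HInv (G.induce (A : Set V)) H i) : ℝ) ≤ ε * H.index) ∧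
        ∃ T : Finset V, G.IsClique (T : Set V) ∧ T.card + 2 * g = n ∧ chiL G T ≠ 0 ∧
          ∀ A : Finset V, (A : Set V) = lk G T → ∀ ε : ℝ, 0 < ε →
            ∃ E : Finset (W (G.induce (A : Set V))), (1 : W (G.induce (A : Set V))) ∉ E ∧
              ∀ H : Subgroup (W (G.induce (A : Set V))), H.FiniteIndex →
                (∀ x ∈ E, ∀ y : W (G.induce (A : Set V)), y * x * y⁻¹ ∉ H) →
                  (|(chiL G T : ℝ)| - ε) * H.index ≤
                    (Module.finrank ℝ (HInv (G.induce (A : Set V)) H g) : ℝ)) ∧
    ∀ N : ℕ,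
      (∀ n ≤ N, ∀ (V : Type) [Fintype V] [LinearOrder V] (G : SimpleGraph V), HSph n G →
        ∀ i : ℕ, 2 * i ≠ n → L2Van G i) ↔
      ∀ n ≤ N, ∀ (V : Type) [Fintype V] [LinearOrder V] (G : SimpleGraph V) (c : ℕ → ℚ), HSph n G →
        IsGam n G c → ∀ i : ℕ,
          (∃ A : Finset V, ¬ L2Van (G.induce (A : Set V)) i) ↔ ∃ k, i ≤ k ∧ c k ≠ 0 := by
  refine ⟨fun n V _ _ G hS => existsUnique_gam hS, ?_, singer_iff_gam⟩
  intro n V _ _ G c hS hc hyp
  have hH : Hered n G := by
    rcases hyp with h | h
    · exact hered_AM h
    · refine (hered_iff2 three hS).2 fun T m hT hm hm' U hU => ?_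
      rcases h T m hT hm hm' U hU with h1 | h1
      · exact suff m U (Or.inl h1)
      · exact h1
  refine ⟨fun j hj => sum_abs hS hH hc j hj, ?_⟩
  obtain ⟨g, hg, hpos, hmax, hvan, T, hT, hTg, hχ⟩ := top hS hH hc
  refine ⟨g, hg, hpos, hmax, fun i => ?_, fun A ε hε =>
    Pool.Agent.R703.MO.growth_set (G.induce (A : Set V)) (fun i => g < i) (fun i hi => hvan A i hi) ε hε,
    T, hT, hTg, hχ, fun A hA ε hε => ?_⟩
  · rw [degrees hS hH hc i]
    refine ⟨fun ⟨k, hk, hck⟩ => ?_, fun hi => ⟨g, hi, hpos.ne'⟩⟩
    by_contra hcon
    exact hck (hmax k (by omega))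
  · obtain ⟨E, hE1, hE2⟩ := (top_link hS hH hT hTg hχ A hA).2.2 ε hε
    refine ⟨E, hE1, fun H hf hE => ?_⟩
    have h1 := hE2 H hf hE g
    rw [if_pos rfl] at h1
    have h2 := (abs_le.1 h1).1
    linarith

end Pool.Agent.Results.MP_ea75ba_gt.GammaDegree
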