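import Pool.Agent.V5helper75.BB.Main2
import Pool.Agent.V5helper12.BB.GEN
import Pool.Agent.V5helper91.BB.TOP
import Pool.Agent.V5helper75.BB.Dj
import Pool.Agent.V5helper75.BB.Obs

/-!
# `L²`-Betti numbers above half the dimension for subgroups of right-angled Artin groups

Let `G` be a finite graph, `A_G` (`Raag G`) its right-angled Artin group, `A_S` the subgroup generated by the vertices in
`S`, `Lk S` the flag complex of the full subgraph on the vertices adjacent to all of `S`.

* (1) Let a subgroup of finite index of a group `E` embed in `A_G` with image `K`. If the reduced real homology of `Lk S`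
  vanishes in degree `i - 1` for all the cliques `S` (the empty one included) such that `K ∩ g A_S g⁻¹ = 1` for some `g`,
  then `b_i(E) = 0`.
* (2) Let `K` be a subgroup of `A_G` and `E` a group which contains a copy of a subgroup of finite index of `K` and acts
  properly discontinuously on a space `X` with `X × X` homeomorphic to the euclidean space of dimension `2 n`. If `S` is a
  clique, `g` an element of `A_G` and `B` a set of vertices of `Lk S` such that for each `w ∈ B` the group `K` contains
  an element of `g A_(S + w) g⁻¹` which is not in `g A_S g⁻¹`, then the reduced real homology of the full subcomplex on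
  `B` vanishes in the degrees `i - 1`, `i > n / 2`.
* (3) So if `K` is *saturated* (the reduced homology of `Lk S` vanishes whenever `K ∩ A_(S + w) ⊆ A_S` for some vertex
  `w` of `Lk S`), then `b_i(Q) = 0` for all `i > n / 2` and all the groups `Q` which virtually embed in `A_G`, in
  particular for all the subgroups `Q` of `E` if `E` is commensurable with `K`.
* (4) `A_G` is saturated, and so is the kernel of `χ : A_G → ℤ` if `Lk S` is acyclic for all the cliques `S` such that
  `χ` vanishes on `S` but not on all the vertices of `Lk S` (for the Bestvina-Brady groups, where `χ(v) = 1` for all `v`,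
  this means that the flag complex of `G` is acyclic).
-/

set_option autoImplicit false

namespace Pool.Agent.Results.MP_ea75ba_gt.SubgroupsOfArtinGroups

open Pool.Agent.N496.CV Pool.Agent.V5helper75.BK
open Pool.Agent.R703.MO (HomZero)

/-- The group `H` acts properly discontinuously on a space `X` such that `X × X` is homeomorphic to the euclidean space
of dimension `2 n`. -/
def ActsProperly (H : Type) [Group H] (n : ℕ) : Prop :=
  ∃ (X : Type) (_ : TopologicalSpace X) (_ : MulAction H X) (_ : ContinuousConstSMul H X)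
    (_ : ProperlyDiscontinuousSMul H X), Nonempty (X × X ≃ₜ (Fin (2 * n) → ℝ))

section

variable {V : Type} (G : SimpleGraph V)

/-- the subgroup `A_S` of the right-angled Artin group of `G` generated by the vertices in `S` -/
def Special (S : Set V) : Subgroup (Raag G) := Subgroup.closure (art G '' S)

/-- the vertices adjacent to all the elements of `S` -/
def Link (S : Set V) : Set V := {w | ∀ v ∈ S, G.Adj v w}

/-- `K ∩ g A_S g⁻¹ = 1` -/
def Misses (K : Subgroup (Raag G)) (g : Raag G) (S : Set V) : Prop := ∀ k ∈ Special G S, g * k * g⁻¹ ∈ K → k = 1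

/-- some element of `K` lies in `g A_(S + w) g⁻¹` but not in `g A_S g⁻¹` -/
def Rich (K : Subgroup (Raag G)) (g : Raag G) (S : Set V) (w : V) : Prop :=
  ∃ k ∈ Special G (insert w S), k ∉ Special G S ∧ g * k * g⁻¹ ∈ K

/-- A subgroup of finite index of `E` embeds in the right-angled Artin group of `G`. -/
def VirtEmb (E : Type) [Group E] : Prop :=
  ∃ (H : Subgroup E) (f : H →* Raag G), H.FiniteIndex ∧ Function.Injective f

/-- A subgroup of `E` is isomorphic to a subgroup of finite index of `K`. -/
def Contains (K : Subgroup (Raag G)) (E : Type) [Group E] : Prop :=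
  ∃ (H : Subgroup E) (K' : Subgroup (Raag G)), K' ≤ K ∧ (K'.subgroupOf K).FiniteIndex ∧ Nonempty (H ≃* K')

/-- If `K ∩ A_(S + w) ⊆ A_S` for some clique `S` and some vertex `w` adjacent to all of `S`, then the reduced real
homology of the link of `S` vanishes (`HomZero G A i` is about the degree `i - 1`). -/
def Saturated [Fintype V] [LinearOrder V] (K : Subgroup (Raag G)) : Prop :=
  ∀ S : Finset V, G.IsClique (S : Set V) → ∀ w ∈ Link G S, ¬ Rich G K 1 S w → ∀ i, HomZero G (Link G S) i

end

/-- See the beginning of the file. -/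
theorem result (V : Type) [Fintype V] [LinearOrder V] (G : SimpleGraph V) :
    (∀ (E : Type) [Group E] (H : Subgroup E) (f : H →* Raag G), H.FiniteIndex → Function.Injective f →
      ∀ i : ℕ, 0 < i → (∀ S : Finset V, G.IsClique (S : Set V) → (∃ g, Misses G f.range g S) →
        HomZero G (Link G S) i) → HasL2Betti E i 0) ∧
    (∀ (K : Subgroup (Raag G)) (E : Type) [Group E] (n : ℕ), Contains G K E → ActsProperly E n →
      ∀ (S : Finset V) (g : Raag G) (B : Set V), G.IsClique (S : Set V) → B ⊆ Link G S →
        (∀ w ∈ B, Rich G K g S w) → ∀ i : ℕ, n < 2 * i → HomZero G B i) ∧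
    (∀ (K : Subgroup (Raag G)) (E : Type) [Group E] (n : ℕ), Contains G K E → ActsProperly E n → Saturated G K →
      ∀ (Q : Type) [Group Q], VirtEmb G Q → ∀ i : ℕ, n < 2 * i → HasL2Betti Q i 0) ∧
    (Saturated G ⊤ ∧ ∀ χ : Raag G →* Multiplicative ℤ,
      (∀ S : Finset V, G.IsClique (S : Set V) → (∀ v ∈ S, χ (art G v) = 1) → (∃ w ∈ Link G S, χ (art G w) ≠ 1) →
        ∀ i, HomZero G (Link G S) i) → Saturated G χ.ker) := by
  have hfl : ∀ S : Finset V, Special G S = Pool.Agent.V5helper75.BB.Flat G S := fun S => rfl
  have hins : ∀ (w : V) (S : Finset V), Special G (insert w (S : Set V)) = Pool.Agent.V5helper75.BB.Flat G (insert w S) :=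
    fun w S => by rw [← hfl, Finset.coe_insert]
  have hmem : ∀ (T : Set V) (u : V), u ∈ T → art G u ∈ Special G T := fun T u hu =>
    Subgroup.subset_closure ⟨u, hu, rfl⟩
  have hm : ∀ (K : Subgroup (Raag G)) (g : Raag G) (S : Finset V), ¬ Pool.Agent.V5helper75.BB.Mt G K g S →
      Misses G K g S := by
    intro K g S h k hk hkK
    by_contra h1
    exact h ⟨k, hk, h1, hkK⟩
  have h1 : ∀ (E : Type) [Group E] (H : Subgroup E) (f : H →* Raag G), H.FiniteIndex → Function.Injective f →
      ∀ i : ℕ, 0 < i → (∀ S : Finset V, G.IsClique (S : Set V) → (∃ g, Misses G f.range g S) →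
        HomZero G (Link G S) i) → HasL2Betti E i 0 := by
    intro E _ H f hH hf i hi h
    obtain ⟨n, rfl⟩ : ∃ n, i = n + 1 := ⟨i - 1, by omega⟩
    exact Pool.Agent.V5helper75.BB.betti_gen Pool.Agent.V5helper12.BB.t_GEN Pool.Agent.V5helper91.BB.t_TOP
      Pool.Agent.V5helper75.BB.t_DJ H hH f hf n fun S hS ⟨g, hg⟩ => h S hS ⟨g, hm _ _ _ hg⟩
  have h2 : ∀ (K : Subgroup (Raag G)) (E : Type) [Group E] (n : ℕ), Contains G K E → ActsProperly E n →
      ∀ (S : Finset V) (g : Raag G) (B : Set V), G.IsClique (S : Set V) → B ⊆ Link G S →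
        (∀ w ∈ B, Rich G K g S w) → ∀ i : ℕ, n < 2 * i → HomZero G B i := by
    rintro K E _ n ⟨H, K', hle, hfi, ⟨e⟩⟩ ⟨X, _, _, _, _, ⟨ex⟩⟩ S g B hS hB hR i hi
    refine Pool.Agent.V5helper75.BB.act_gen (g := g) Pool.Agent.V5helper75.BB.t_OBS3 H K K' hle hfi e ex hi hS hB fun w hw => ?_
    obtain ⟨k, hk, hk1, hk2⟩ := hR w hw
    rw [hins] at hk
    exact ⟨k, hk, hk1, hk2⟩
  refine ⟨h1, h2, ?_, ?_, ?_⟩
  · rintro K E _ n hC hX hS Q _ ⟨H, f, hH, hf⟩ i hi
    refine h1 Q H f hH hf i (by omega) fun S hcl _ => ?_
    by_cases h3 : ∀ w ∈ Link G S, Rich G K 1 S w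
    · exact h2 K E n hC hX S 1 _ hcl subset_rfl h3 i hi
    · push Not at h3
      obtain ⟨w, hw, hw'⟩ := h3
      exact hS S hcl w hw hw' i
  · intro S hS w hw hR
    exfalso
    apply hR
    have hwS : w ∉ S := fun h => (G.ne_of_adj (hw w h)) rfl
    refine ⟨art G w, ?_, ?_, Subgroup.mem_top _⟩
    · exact hmem _ w (Set.mem_insert _ _)
    · have h3 := Pool.Agent.V5helper75.BB.notMem_flat (G := G) (S := S) hwS one_ne_zero (Subgroup.one_mem _)
      rw [zpow_one, mul_one] at h3
      exact h3
  · intro χ hχ S hS w hw hR i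
    have hwS : w ∉ S := fun h => (G.ne_of_adj (hw w h)) rfl
    by_cases hd : ∀ v ∈ S, χ (art G v) = 1
    · refine hχ S hS hd ⟨w, hw, fun h4 => hR ⟨art G w, hmem _ w (Set.mem_insert _ _), ?_, ?_⟩⟩ i
      · have h3 := Pool.Agent.V5helper75.BB.notMem_flat (G := G) (S := S) hwS one_ne_zero (Subgroup.one_mem _)
        rw [zpow_one, mul_one] at h3
        exact h3
      · rw [one_mul, inv_one, mul_one, MonoidHom.mem_ker]
        exact h4
    · exfalso
      push Not at hd
      obtain ⟨v, hv, hv1⟩ := hd
      apply hR
      have h4 : Multiplicative.toAdd (χ (art G v)) ≠ 0 := fun h => hv1 (Multiplicative.toAdd.injective h)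
      refine ⟨art G w ^ (Multiplicative.toAdd (χ (art G v))) * art G v ^ (-(Multiplicative.toAdd (χ (art G w)))), ?_,
        ?_, ?_⟩
      · exact (Special G _).mul_mem ((Special G _).zpow_mem (hmem _ w (Set.mem_insert _ _)) _)
          ((Special G _).zpow_mem (hmem _ v (Set.mem_insert_of_mem _ hv)) _)
      · exact Pool.Agent.V5helper75.BB.notMem_flat (G := G) (S := S) hwS h4
          ((Special G S).zpow_mem (hmem S v hv) _)
      · rw [one_mul, inv_one, mul_one, MonoidHom.mem_ker, map_mul, map_zpow, map_zpow]
        apply Multiplicative.toAdd.injective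
        rw [toAdd_mul, toAdd_zpow, toAdd_zpow, toAdd_one]
        simp only [smul_eq_mul]
        ring

end Pool.Agent.Results.MP_ea75ba_gt.SubgroupsOfArtinGroups
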